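import Pool.Agent.Q7.PT.Avg

/-!
# The quadratic twists of the Jacobians of `y ^ 2 = D_ℓ(x, a) - t` by nearly half of all primes, over all
# constant extensions of degree prime to `ℓ`

`k` is a finite field with `q` elements of odd characteristic, `ℓ` an odd prime dividing `q ^ 2 - 1`, and
`D_ℓ(x, a)` is the Dickson polynomial of degree `ℓ` with the parameter `a ≠ 0` in `k`, with
`D_ℓ(u + a / u, a) = u ^ ℓ + (a / u) ^ ℓ`. For a squarefree polynomial `D` over `k` let `J_D` be the
Jacobian, of dimension `(ℓ - 1) / 2`, of the curve `D(t) y ^ 2 = D_ℓ(x, a) - t` over `K = k(t)`.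

For a proportion of at least `(ℓ - 1) / (2 ℓ)` of the primes `P` of `k[t]`, and for all squarefree products
`D` of such primes and constants, the `L`-function of `J_D` has no zero `T` with `(q T) ^ e = 1`, for all
`e` prime to `ℓ`; so the conjecture of Birch and Swinnerton-Dyer holds for `J_D` over `k_e(t)` for all the
extensions `k_e` of `k` of degree `e` prime to `ℓ` at once. The sums of the orders of vanishing for the two
constant twists are bounded for all `D`, and so are their averages over the primes of degree `N`.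
-/

set_option autoImplicit false
set_option maxHeartbeats 1000000

open Polynomial

namespace Pool.Agent.Results.MP_60d5ce_nt.DicksonPrimeTwists

/-- The closed points of the affine line over the field `F`: monic irreducible polynomials. -/
abbrev ClosedPt (F : Type) [Field F] : Type := {P : F[X] // P.Monic ∧ Irreducible P}

section generic

variable {F : Type} [Field F]

open Classical in
/-- The quadratic character of the field `F[x] / (Q)` at the class of `h`. -/
noncomputable def quadChar (h Q : F[X]) : ℤ :=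
  if Q ∣ h then 0 else if ∃ s : F[X], Q ∣ h - s ^ 2 then 1 else -1

/-- The degree of the closed point `Q` of the line over a field `F` of degree `d`. -/
noncomputable def ptDegree (d : ℕ) (Q : ClosedPt F) : ℕ := d * Q.1.natDegree

/-- The Euler factor `1 - χ T ^ n`, where `χ` is the value of the quadratic character of the residue
field of `Q` at `h`, and `n` is the degree of `Q`. -/
noncomputable def ptFactor (h : F[X]) (d : ℕ) (Q : ClosedPt F) : PowerSeries ℤ :=
  1 - PowerSeries.C (quadChar h Q.1) * PowerSeries.X ^ ptDegree d Q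

end generic

/-- The Euler product: its coefficient of index `n` is that of the product of the factors of degree
at most `n`. -/
noncomputable def eulerProduct {ι : Type} (d : ι → ℕ) (f : ι → PowerSeries ℤ) : PowerSeries ℤ :=
  PowerSeries.mk fun n => PowerSeries.coeff n (∏ᶠ (i : ι) (_ : d i ≤ n), f i)

section defs

variable {k : Type} [Field k]

/-- The residue field of the closed point `P` of the `t`-line. -/
def Res (P : ClosedPt k) : Type := AdjoinRoot P.1

noncomputable instance resField (P : ClosedPt k) : Field (Res P) :=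
  @AdjoinRoot.instField k _ P.1 ⟨P.2.2⟩

/-- The value at `P` of a polynomial in `t`. -/
noncomputable def value (P : ClosedPt k) (g : k[X]) : Res P := AdjoinRoot.mk P.1 g

/-- The inclusion of the constants in the residue field. -/
noncomputable def constants (P : ClosedPt k) : k →+* Res P := AdjoinRoot.of P.1

/-- The polynomial `D(t) (f(x) - t)` in `x` over the residue field of the closed point `P`. -/
noncomputable def fibre (f D : k[X]) (P : ClosedPt k) : (Res P)[X] :=
  C (value P D) * (f.map (constants P) - C (value P X))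

/-- The closed points of the `(t, x)`-plane with `D(t) ≠ 0`: a closed point of the `t`-line and a
closed point of the `x`-line over its residue field. -/
structure PlanePt (D : k[X]) : Type where
  place : ClosedPt k
  ndvd : ¬ place.1 ∣ D
  point : ClosedPt (Res place)

/-- The degree of a closed point of the plane. -/
noncomputable def PlanePt.deg {D : k[X]} (z : PlanePt D) : ℕ :=
  ptDegree z.place.1.natDegree z.point

/-- The Euler factor of a closed point of the plane. -/
noncomputable def PlanePt.factor {D : k[X]} (f : k[X]) (z : PlanePt D) : PowerSeries ℤ :=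
  ptFactor (fibre f D z.place) z.place.1.natDegree z.point

/-- The `L`-function of the Jacobian of the curve `D(t) y ^ 2 = f(x) - t` over `k(t)` in the variable
`T = q ^ (-s)`: the product of `1 - χ(z) T ^ deg z` over the closed points `z` of the plane with
`D(t) ≠ 0`, where `χ(z)` is the quadratic character of the residue field of `z` at
`D(t) (f(x) - t)`. -/
noncomputable def Lfun (f D : k[X]) : PowerSeries ℤ :=
  eulerProduct (fun z : PlanePt D => z.deg) (fun z => z.factor f)

/-- `L(T) = (1 - q T) ^ m G(T)` with an integral polynomial `G`: the function vanishes to order at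
least `m` at `T = 1 / q`. -/
def VanishesTo (f D : k[X]) (m : ℕ) : Prop :=
  ∃ G : ℤ[X], Lfun f D = (((1 - C (Nat.card k : ℤ) * X) ^ m * G : ℤ[X]) : PowerSeries ℤ)

/-- `L(T) = (1 - q ζ T) G(T)` with a complex polynomial `G` and a root of unity `ζ` with `ζ ^ e = 1`: the
function has a zero `T` with `(q T) ^ e = 1`. -/
def HasZero (f D : k[X]) (e : ℕ) : Prop :=
  ∃ ζ : ℂ, ζ ^ e = 1 ∧ ∃ G : ℂ[X], PowerSeries.map (Int.castRingHom ℂ) (Lfun f D) =
    (((1 - C ((Nat.card k : ℂ) * ζ) * X) * G : ℂ[X]) : PowerSeries ℂ)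

open Classical in
/-- The monic irreducible factors of a polynomial. -/
noncomputable def primes (g : k[X]) : Finset k[X] :=
  (UniqueFactorizationMonoid.normalizedFactors g).toFinset

/-- The greatest power of two dividing `n`. -/
def twoPart (n : ℕ) : ℕ := 2 ^ padicValNat 2 n

/-- The polynomial `P(f(x))` is irreducible: the prime `P` is inert in `k(x)`, `t = f(x)`. -/
def IsInert (f P : k[X]) : Prop := Irreducible (P.comp f)

variable (k) in
/-- The primes of degree `N`. -/
def primesOfDegree (N : ℕ) : Set (ClosedPt k) := {P | P.1.natDegree = N}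

/-- The inert primes of degree `N`. -/
def inertOfDegree (f : k[X]) (N : ℕ) : Set (ClosedPt k) := {P | P.1.natDegree = N ∧ IsInert f P.1}

/-- The sum of the `q ^ d` over the proper divisors `d` of `N`. -/
def properSum (q N : ℕ) : ℤ := ∑ d ∈ N.properDivisors, (q : ℤ) ^ d

/-- The characteristic of `k` is not two, `ℓ` is an odd prime dividing `q ^ 2 - 1`, and `a ≠ 0`. -/
structure IsAdmissible (ℓ : ℕ) (a : k) : Prop where
  two_ne : (2 : k) ≠ 0
  prime : ℓ.Prime
  odd : ℓ ≠ 2
  dvd : ℓ ∣ Nat.card k ^ 2 - 1
  ne_zero : a ≠ 0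

/-- The Dickson polynomial `D_ℓ(x, a)`, with `D_ℓ(u + a / u, a) = u ^ ℓ + (a / u) ^ ℓ`. -/
noncomputable def dick (ℓ : ℕ) (a : k) : k[X] := dickson 1 a ℓ

/-- The proportion of the inert primes is at least `(ℓ - 1) / (2 ℓ)`: their number `n` in degree `N`
satisfies `2 ℓ (N n + ∑ q ^ d) ≥ (ℓ - 1) (q ^ N - 1)`, and the number `n` of all primes of degree `N`
satisfies `q ^ N - ∑ q ^ d ≤ N n ≤ q ^ N`, where `d` runs through the proper divisors of `N`. -/
def NearlyHalfInert (ℓ : ℕ) (a : k) : Prop :=
  ∀ N : ℕ, 0 < N →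
    ((ℓ : ℤ) - 1) * ((Nat.card k : ℤ) ^ N - 1) ≤
      2 * ℓ * ((N : ℤ) * (inertOfDegree (dick ℓ a) N).ncard + properSum (Nat.card k) N) ∧
    (Nat.card k : ℤ) ^ N - properSum (Nat.card k) N ≤ (N : ℤ) * (primesOfDegree k N).ncard ∧
    (N : ℤ) * (primesOfDegree k N).ncard ≤ (Nat.card k : ℤ) ^ N

/-- If all prime factors of `D` are inert there are no zeros with `(q T) ^ e = 1`, for all `e` prime to
`ℓ`. -/
def Nonvanishing (ℓ : ℕ) (f : k[X]) : Prop :=
  ∀ D : k[X], Squarefree D → (∀ P ∈ primes D, IsInert f P) →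
    ∀ e : ℕ, 0 < e → e.Coprime ℓ → ¬ HasZero f D e

open Classical in
/-- The bound for the sum of the orders for the two constant twists. -/
def SumBound (ℓ : ℕ) (f : k[X]) : Prop :=
  ∀ D : k[X], Squarefree D → ∀ g : k, ¬ IsSquare g → ∀ m m' : ℕ,
    VanishesTo f D m → VanishesTo f (C g * D) m' →
      m + m' ≤ (ℓ - 1) * ∑ P ∈ (primes D).filter (fun P => ¬ IsInert f P), twoPart P.natDegree

/-- The bound for the average of the orders over the primes of degree `N`. -/
def AverageBound (ℓ : ℕ) (f : k[X]) : Prop :=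
  ∀ N : ℕ, 0 < N → ∀ g : k, ¬ IsSquare g → ∀ r r' : ClosedPt k → ℕ,
    (∀ P ∈ primesOfDegree k N, VanishesTo f P.1 (r P) ∧ VanishesTo f (C g * P.1) (r' P)) →
      2 * ℓ * ((N : ℤ) * ((∑ᶠ P ∈ primesOfDegree k N, (r P + r' P) : ℕ) : ℤ)) ≤
        (ℓ - 1) * twoPart N *
          ((ℓ + 1) * (Nat.card k : ℤ) ^ N + (ℓ - 1) + 2 * ℓ * properSum (Nat.card k) N)

/-- the equivalence of the two descriptions of the points of the plane -/
noncomputable def planeEquiv (D : k[X]) :
    (Σ P : {P : Pool.Agent.W313.Hyp.MI k // ¬ P.1 ∣ D},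
      Pool.Agent.W313.Hyp.MI (Pool.Agent.TH943.HJ.RF P.1)) ≃ PlanePt D where
  toFun z := ⟨z.1.1, z.1.2, z.2⟩
  invFun z := ⟨⟨z.place, z.ndvd⟩, z.point⟩
  left_inv _ := rfl
  right_inv _ := rfl

theorem Lfun_eq (f D : k[X]) : Lfun f D = Pool.Agent.TH943.HJ.LF f D := by
  unfold Lfun Pool.Agent.TH943.HJ.LF eulerProduct Pool.Agent.W343.BSD.eulerProd
  ext n
  rw [PowerSeries.coeff_mk, PowerSeries.coeff_mk]
  congr 1
  exact (finprod_comp_equiv (planeEquiv D)
    (f := fun z : PlanePt D => ∏ᶠ (_ : z.deg ≤ n), z.factor f)).symm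

end defs

/-- **The conjecture of Birch and Swinnerton-Dyer for Jacobians twisted by nearly half of all primes, over
all constant extensions of degree prime to `ℓ`.**

Let `k` be a finite field with `q` elements, of odd characteristic, `ℓ` an odd prime dividing `q ^ 2 - 1`,
`a ≠ 0` in `k` and `f = D_ℓ(x, a)` the Dickson polynomial of degree `ℓ`. For a squarefree polynomial `D`
over `k` let `J_D` be the Jacobian, of dimension `g = (ℓ - 1) / 2`, of the curve `D(t) y ^ 2 = f(x) - t` over
`K = k(t)`. It is not isotrivial: over the two places `t ^ 2 = 4 a ^ ℓ`, if they are not zeros of `D`, the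
fibre has `g` nodes and the reduction is totally toric. At the other finite places prime to `D` the
reduction is good. There are no inertia invariants at the zeros of `D` (a ramified quadratic twist of good or
of semistable toric reduction) and at infinity (inertia acts on the cohomology of `y ^ 2 = x ^ ℓ - 1` by an
automorphism `x → ζ x`, `y → ± y` with `ζ ≠ 1`). The surface `D(t) y ^ 2 = f(x) - t` is regular where
`D(t) ≠ 0`, so that `Lfun f D` is the `L`-function of `J_D`, a polynomial in `T = q ^ (-s)`. For an extension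
`k_e` of `k` of degree `e` the `L`-function of `J_D` over `k_e(t)` is, as a function of `T ^ e`, the product of
the `L(ζ T, J_D)` over the numbers `ζ` with `ζ ^ e = 1`; it vanishes at the central point if and only if
`L(T, J_D)` has a zero with `(q T) ^ e = 1`.

(1) The number `n` of the primes `P` of `k[t]` of degree `N` for which `P(f(x))` is irreducible is at
least `((ℓ - 1) (q ^ N - 1) / (2 ℓ) - ∑ q ^ d) / N`, the sum over the proper divisors `d` of `N`: the
proportion of these inert primes is at least `(ℓ - 1) / (2 ℓ)`, nearly one half for large `ℓ`.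

(2) If all prime factors of the squarefree polynomial `D` are inert (`D` need not be monic), then
`L(T, J_D)` has no zero `T` with `(q T) ^ e = 1`, for ALL `e` prime to `ℓ`. So for `J_D` over `k_e(t)`, for
all these `e`, by Tate's inequality the rank and the order are zero, and by the theorem of Kato and Trihan
the Tate-Shafarevich group is finite and the formula of Birch and Swinnerton-Dyer holds. The groups
`J_D(k_e(t))` and their union over all `e` prime to `ℓ` are torsion.

(3) For every squarefree `D`, and `g` in `k` not a square, the sum of the orders of vanishing of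
`L(T, J_D)` and of `L(T, J_{g D})` at `T = 1 / q` is at most `(ℓ - 1) ∑ 2 ^ v(deg P)`, the sum over the prime
factors of `D` which are not inert, `v` the 2-adic valuation.

(4) The sum over all primes `P` of degree `N` of the orders for `J_P` and for `J_{g P}` is at most
`(ℓ - 1) 2 ^ v(N) ((ℓ + 1) q ^ N + (ℓ - 1) + 2 ℓ ∑ q ^ d) / (2 ℓ N)`. There are about `q ^ N / N` primes, so
for odd `N` the average order of the `J_P` and `J_{g P}` is at most `(ℓ + 1) / (2 ℓ) g + o(1)`, about half the
dimension. -/
theorem result (k : Type) [Field k] [Finite k] (ℓ : ℕ) (a : k) (h : IsAdmissible ℓ a) :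
    NearlyHalfInert ℓ a ∧ Nonvanishing ℓ (dick ℓ a) ∧ SumBound ℓ (dick ℓ a) ∧
      AverageBound ℓ (dick ℓ a) := by
  have hm : (dick ℓ a).Monic := Pool.Agent.TH943.PT.dick_monic a h.prime.pos
  have hdeg : (dick ℓ a).natDegree = ℓ := Pool.Agent.TH943.PT.dick_natDegree a h.prime.pos
  have hℓo : Odd ℓ := h.prime.odd_of_ne_two h.odd
  have ho : Odd (dick ℓ a).natDegree := by rw [hdeg]; exact hℓo
  have hl1 : ((ℓ - 1 : ℕ) : ℤ) = (ℓ : ℤ) - 1 := by
    rw [Nat.cast_sub h.prime.one_lt.le]; norm_num
  have hone : NearlyHalfInert ℓ a := by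
    intro N hN
    have h1 := Pool.Agent.TH943.PT.dick_inert h.prime h.odd h.ne_zero h.dvd hN
    have h2 : (((ℓ - 1) * (Nat.card k ^ N - 1) : ℕ) : ℤ) ≤
        ((2 * ℓ * (N * (inertOfDegree (dick ℓ a) N).ncard +
          ∑ d ∈ N.properDivisors, Nat.card k ^ d) : ℕ) : ℤ) := by exact_mod_cast h1
    have hq1 : 1 ≤ Nat.card k ^ N := Nat.one_le_pow _ _ Nat.card_pos
    rw [Nat.cast_mul, hl1, Nat.cast_sub hq1] at h2
    push_cast at h2
    exact ⟨h2, Pool.Agent.Q7.PT.count_all hN⟩
  refine ⟨hone, ?_, ?_, ?_⟩
  · rintro D hD hin e he hco ⟨ζ, hζ, G, hG⟩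
    rw [Lfun_eq] at hG
    refine Pool.Agent.Q7.PT.no_zero (Pool.Agent.W343.BSD.card_odd h.two_ne) hm ho hD.ne_zero
      (fun P hP => ?_) (by rw [hdeg]; exact hco) hζ he.ne' G hG
    have h1 := (Pool.Agent.W313.Hyp.mem_facs hD.ne_zero P).1 hP
    exact hin P.1 ((Pool.Agent.TH943.HJ.mem_primes hD.ne_zero P.1).2 ⟨P.2.1, P.2.2, h1⟩)
  · rintro D hD g hg m m' ⟨G1, h1⟩ ⟨G2, h2⟩
    rw [Lfun_eq] at h1 h2
    obtain ⟨G, hG⟩ := Pool.Agent.Q7.PT.combine h.two_ne hg (dick ℓ a) D m m' G1 G2 h1 h2
    have h3 := Pool.Agent.Q7.PT.order_le2 h.two_ne hm ho hD.ne_zero m m' G hG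
    rw [hdeg] at h3
    exact h3
  · intro N hN g hg r r' hr
    have h1 := Pool.Agent.Q7.PT.sum_orders h.two_ne hm ho hg N r r'
      (fun P hP => by
        obtain ⟨G, hG⟩ := (hr P hP).1
        exact ⟨G, by rw [← Lfun_eq]; exact hG⟩)
      (fun P hP => by
        obtain ⟨G, hG⟩ := (hr P hP).2
        exact ⟨G, by rw [← Lfun_eq]; exact hG⟩)
    rw [hdeg] at h1
    obtain ⟨h2, -, h3⟩ := hone N hN
    set S : ℕ := ∑ᶠ P ∈ primesOfDegree k N, (r P + r' P) with hS
    set t : ℕ := twoPart N with ht
    set A : ℕ := (inertOfDegree (dick ℓ a) N).ncard with hA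
    set B : ℕ := (primesOfDegree k N).ncard with hB
    have h4 : (S : ℤ) + ((ℓ : ℤ) - 1) * t * A ≤ ((ℓ : ℤ) - 1) * t * B := by
      have h5 : S + (ℓ - 1) * t * A ≤ (ℓ - 1) * t * B := h1
      have h6 : ((S + (ℓ - 1) * t * A : ℕ) : ℤ) ≤ (((ℓ - 1) * t * B : ℕ) : ℤ) := by exact_mod_cast h5
      rw [Nat.cast_add, Nat.cast_mul, Nat.cast_mul, Nat.cast_mul, Nat.cast_mul, hl1] at h6
      exact h6
    have ht0 : (0 : ℤ) ≤ t := Int.natCast_nonneg _
    have hN0 : (0 : ℤ) ≤ N := Int.natCast_nonneg _
    have hl0 : (0 : ℤ) ≤ ℓ := Int.natCast_nonneg _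
    have hl2 : (0 : ℤ) ≤ (ℓ : ℤ) - 1 := by
      have := h.prime.one_lt
      omega
    have hc : (0 : ℤ) ≤ ((ℓ : ℤ) - 1) * t := mul_nonneg hl2 ht0
    have h6 := mul_le_mul_of_nonneg_left h4 (mul_nonneg (mul_nonneg zero_le_two hl0) hN0)
    have h7 := mul_le_mul_of_nonneg_left h3 (mul_nonneg (mul_nonneg zero_le_two hl0) hc)
    have h8 := mul_le_mul_of_nonneg_left h2 hc
    linarith

end Pool.Agent.Results.MP_60d5ce_nt.DicksonPrimeTwists
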