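import Pool.Agent.Y709.Kum.CountF
import Pool.Agent.Results.MP_60d5ce_nt.AbelianByPExtensions

/-!
# Twists of superelliptic Jacobians over all the `p`-extensions of one curve, uniformly in the curve

`k ⊇ 𝔽_q` is a finite field of characteristic `p`, `μ` a divisor of `q - 1`, and `C` is any curve over `k`
given by Kummer equations `w_i ^ μ = γ_i(t)`, `i = 1, …, a`, with arbitrary polynomials `γ_i ≠ 0`, for
example a hyperelliptic curve `w ^ 2 = γ(t)` of any genus (`a = 1`, `μ = 2`). For all but a proportion
`2 e μ ^ a / q` of the polynomials `D` of degree at most `N` over `k`, for all large `N` outside of a few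
residue classes, the following holds over the function field of `C` and over all its extensions `L` of
`p`-power degree which are Galois over `k(t)` and unramified outside of the zeros of `D B` and `∞`, at
once: none of the `L`-functions over `L` of the characters of exact order `q - 1` of the curve
`y ^ (q - 1) = D(t) B(t) ∏ (x - β_i(t)) ^ (m_i)` vanishes at a point `s` with `(#k) ^ (e (1 - s)) = 1`.

The proportion `2 e μ ^ a / q` does not depend on the curve `C` - for all hyperelliptic curves it is
`4 e / q`. The starting file `AbelianByPExtensions` treats all the curves `C` with branch points among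
the zeros of `B` and `∞` at once, for all but a proportion `2 e μ ^ (ω + 1) / q` of the `D`, `ω` being
the number of the prime factors of `B`; for more than `log q / log μ` branch points nothing remains.
Also, here the zeros of `B`, that is the branch points, may be zeros of the differences `β_i - β_j`.

The proof is in the library of the starting files (`Pool.Agent.Y709.Kum.countFX`, with the Kummer
theory of `Pool.Agent.Y363`, `Pool.Agent.Y427`, `Pool.Agent.Y468`); the theorem was not stated there for
Jacobians.
-/

set_option autoImplicit false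

open Polynomial

namespace Pool.Agent.Results.MP_60d5ce_nt.FixedKummerBase

open Pool.Agent.Results.MP_60d5ce_nt.AbelianByPExtensions

/-- A finite group `G` acts on the ring `O ⊇ k[t]` faithfully and with the ring of invariants `k[t]`, so
that `Spec O` is a Galois covering of the line with the group `G`. There are elements `w_1, …, w_a` of
`O` with `w_i ^ μ = γ_i`, every element of the group multiplies every `w_i` by a constant, and the
elements which fix all `w_i` form a `p`-group: so `Spec O` is a covering, with a `p`-group, of a
component of the curve `w_i ^ μ = γ_i(t)`. The covering is unramified at the points where `E(t)` is not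
zero: the inertia groups are trivial. -/
structure IsLayerOver {k : Type} [Field k] (p μ : ℕ) {a : ℕ} (γ : Fin a → k[X]) (E : k[X])
    (G O : Type) [Group G] [Finite G] [CommRing O] [Algebra k[X] O] [MulSemiringAction G O] :
    Prop where
  galois : IsGaloisGroup G k[X] O
  injective : Function.Injective (algebraMap k[X] O)
  kummer : ∃ w : Fin a → O, (∀ i, w i ^ μ = algebraMap k[X] O (γ i)) ∧
    (∀ i, ∀ σ : G, ∃ c : k, σ • w i = algebraMap k[X] O (C c) * w i) ∧
    ∀ σ : G, (∀ i, σ • w i = w i) → ∃ n : ℕ, σ ^ p ^ n = 1
  unramified : ∀ 𝔪 : MaximalSpectrum O, algebraMap k[X] O E ∉ 𝔪.asIdeal →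
    𝔪.asIdeal.inertia G = ⊥

/-- The pencil has simple collisions, and its sections have the degree `d`: the differences of the
sections `β_i` have exactly the degree `d ≥ 1`, and their product is squarefree. The multiplicities `m_i`
are positive, `B` is not zero, and no zero of `B` has a multiplicity above `b`. -/
structure SimpleCollisions {k : Type} [Field k] {r : ℕ} (S : Pencil k r) (d b : ℕ) : Prop where
  deg_pos : 0 < d
  root_deg : ∀ i, (S.root i).natDegree ≤ d
  diff_deg : ∀ i j, i ≠ j → (S.root i - S.root j).natDegree = d
  diff_sq : Squarefree S.differences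
  mult_pos : ∀ i, 0 < S.mult i
  coef_ne : S.coef ≠ 0
  coef_mult : ∀ P : k[X], Irreducible P → ¬ P ^ (b + 1) ∣ S.coef

/-- The polynomials `D` of degree at most `N` such that over some covering of the line as above, with the
given `γ_1, …, γ_a`, unramified outside of the zeros of `D B` (and `∞`), the `L`-function of one of the
characters `χ` of exact order `q - 1` vanishes at a point with `(#k T) ^ e = 1`. -/
def vanishing {k : Type} [Field k] {r : ℕ} (S : Pencil k r) (p q μ : ℕ) {a : ℕ}
    (γ : Fin a → k[X]) (e N : ℕ) : Set k[X] :=
  {D | D ∈ twists k N ∧ ∃ (G O : Type) (_ : Group G) (_ : Finite G) (_ : CommRing O)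
    (_ : Algebra k[X] O) (_ : MulSemiringAction G O), IsLayerOver p μ γ (D * S.coef) G O ∧
      ∃ χ : MulChar k ℂ, orderOf χ = q - 1 ∧ Vanishes (Nat.card k) e (S.Lfun O χ D)}

/-- **Nonvanishing for almost all Kummer twists of superelliptic Jacobians over all the `p`-extensions of
the function field of a fixed curve, uniformly in the curve.**

Let `q` be a power of the prime number `p`, let `k` be a finite extension of the field with `q` elements,
let `μ` be a divisor of `q - 1`, and `κ = (q - 1) / μ`. Let `β_0, …, β_r` be polynomials in `k[t]` of degree at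
most `d ≥ 1` with simple collisions: all differences `β_i - β_j` have exactly the degree `d`, and their
product is squarefree. Let `m_i ≥ 1` be integers with the sum `n < p`, let `B ≠ 0` be a polynomial without
zeros of a multiplicity above `b`, and let `γ_1, …, γ_a ≠ 0` be polynomials all of whose zeros are zeros
of `B`; suppose that `r n ≤ q - 1`, `4 (r + 1) ^ 2 ≤ q` and `n + b + 3 r + 3 ≤ κ`. There is no condition on the
degrees of the `β_i` and of the `γ_i`.

For `D ≠ 0` in `k[t]` let `A_D` be the new part of the Jacobian of the curve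
`y ^ (q - 1) = D(t) B(t) ∏ (x - β_i(t)) ^ (m_i)` over `k(t)`: the part of the characters of exact order `q - 1`
of the group of roots of unity. Let `K` be the function field of (a component of) the curve
`w_i ^ μ = γ_i(t)`, and let `L` run through ALL the finite extensions of `K` of `p`-power degree that are
Galois over `k(t)` and unramified over `k(t)` outside of the zeros of `D B` and `∞`. The theorem: of the
polynomials `D` of degree at most `N`, where `N + f = κ M + ρ`, `f = deg B + d n`, `2 r < ρ < κ` and
`M ≥ 8 μ (r + 1) ^ 2 (f + (q - 1) ∑ deg γ_i + 1)` (so for all large `N` outside of `2 r + 1` residue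
classes modulo `κ`), at most a proportion `2 e μ ^ a / q` are such that over one of these `L` one of the
`L`-functions of `A_D` vanishes at a point `T` with `(#k T) ^ e = 1`. For the other `D` (with a simple zero
where `B ∏ (β_i - β_j)` is not zero) `A_D` has rank zero over all these `L` and over their constant
extensions of degree `e`, the order of the `L`-function at `s = 1` is zero, the Tate-Shafarevich group is
finite, and the formula of Birch and Swinnerton-Dyer holds (Tate, Milne, Kato-Trihan).

As in the starting file `AbelianByPExtensions`, for `q = p`, `r = 2`, `n = (p - 1) / 2`,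
`n + b + 9 ≤ (p - 1) / μ` is needed for the full Jacobians; this condition holds for `μ = 1`, that is for
the `p`-extensions of `k(t)`. For `μ ≥ 2` the theorem is about the new parts. -/
theorem result (k : Type) [Field k] [Finite k] (p : ℕ) [Fact p.Prime] [CharP k p] (f₀ s q : ℕ)
    (hf₀ : 0 < f₀) (hs : 0 < s) (hq : q = p ^ f₀) (hk : Nat.card k = q ^ s) (μ κ : ℕ) (hμ : 0 < μ)
    (hμκ : μ * κ = q - 1) (r : ℕ) (S : Pencil k r) (d b : ℕ) (hS : SimpleCollisions S d b)
    (a : ℕ) (γ : Fin a → k[X]) (hγ0 : ∀ i, γ i ≠ 0)
    (hγ : ∀ i, ∀ P : k[X], Irreducible P → P ∣ γ i → P ∣ S.coef)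
    (hchar : S.degX < p) (hdeg : r * S.degX ≤ q - 1) (hr : 4 * (r + 1) ^ 2 ≤ q)
    (hb : S.degX + b + 3 * r + 3 ≤ κ) (e : ℕ) (he : e ∣ q - 1) (f : ℕ)
    (hf : f = S.coef.natDegree + d * S.degX) (M ρ N : ℕ)
    (hM : μ * (8 * (r + 1) ^ 2 * (f + (q - 1) * (∑ i, (γ i).natDegree) + 1)) ≤ M)
    (hρ : 2 * r < ρ) (hρκ : ρ < κ) (hN : N + f = κ * M + ρ) :
    (twists k N).ncard = Nat.card k ^ (N + 1) ∧
      q * (vanishing S p q μ γ e N).ncard ≤ 2 * e * μ ^ a * (twists k N).ncard := by
  have hFt : Fintype k := Fintype.ofFinite k
  have h0 : (twists k N).ncard = Nat.card k ^ (N + 1) :=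
    Pool.Agent.Y709.ncard_natDegree_le N
  refine ⟨h0, ?_⟩
  rw [h0]
  have hsimple := Pool.Agent.Y709.Irr.simple_of hS.deg_pos hS.root_deg hS.diff_deg hS.diff_sq
  have h7 := Pool.Agent.Y709.Kum.countFX (k := k) Pool.Agent.Y363.Kum.kummerDegreeFam
    Pool.Agent.Y468.Kum.kummerProd Pool.Agent.Y427.Kum.kummerOrder (p := p) hq hf₀ hs
    (by rw [← Nat.card_eq_fintype_card, hk]) S.coef hS.coef_ne b hS.coef_mult hsimple
    hS.mult_pos hchar hdeg hμ hμκ γ hγ0 hγ hb hr f ρ M N e hf he (by omega) (by omega) hM hN
  refine le_trans (Nat.mul_le_mul_left q (Set.ncard_le_ncard ?_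
    ((Pool.Agent.Y709.finite_natDegree_le N).subset fun D hD => hD.1))) h7
  rintro D ⟨hD, G, O, i1, i2, i3, i4, i5, hL, χ, hχ, ζ, hζ, H, hH⟩
  have i6 := hL.galois
  have i7 : FaithfulSMul k[X] O := (faithfulSMul_iff_algebraMap_injective _ _).2 hL.injective
  obtain ⟨w, hw, hact, hst⟩ := hL.kummer
  refine ⟨hD, G, O, i1, i2, i3, i4, i5, i6, i7, w, hw, hact, ?_, ?_, χ, hχ, ζ, hζ, H, ?_⟩
  · rintro ⟨σ, hσ⟩
    obtain ⟨n, h1⟩ := hst σ fun i => by
      have h2 := (Subgroup.mem_iInf.1 hσ) i
      exact MulAction.mem_stabilizer_iff.1 h2
    exact ⟨n, Subtype.ext h1⟩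
  · intro 𝔪 h𝔪
    apply hL.unramified
    intro h0
    exact h𝔪 ((Pool.Agent.Y709.Lay.vO_eq_zero k).2 h0)
  · rw [← Lfun_eq, hH]

end Pool.Agent.Results.MP_60d5ce_nt.FixedKummerBase
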