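import Pool.Agent.Y701.QG.Mult

/-!
# Elliptic curves whose equation is quadratic in the parameter, over all `ℓ`-power Galois extensions
of `k(t)`

The elliptic curves `E : y ^ 2 = f(x) + 2 g(x) t + h(x) t ^ 2` over `k(t)`, where `f`, `g`, `h` are
polynomials of degree at most three over a finite field `k` of characteristic at least five.
-/

set_option autoImplicit false
set_option linter.all false
set_option maxHeartbeats 4000000

open Polynomial FF Module Pool.Agent.W343.BSD

namespace Pool.Agent.Results.MP_60d5ce_nt.QuadraticInParameter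

section defs

variable {k : Type} [Field k]

/-- The coefficient `f_i + 2 g_i t + h_i t ^ 2` of `x ^ i`. -/
noncomputable def coefficient (f g h : k[X]) (i : ℕ) : k[X] :=
  C (f.coeff i) + C (2 * g.coeff i) * X + C (h.coeff i) * X ^ 2

/-- The coefficient `a` of the short form `y ^ 2 = x ^ 3 + a x + b` of
`E : y ^ 2 = f(x) + 2 g(x) t + h(x) t ^ 2` (multiply by the square of the coefficient `c_3` of `x ^ 3`,
and replace `c_3 x` by `x - c_2 / 3` and `c_3 y` by `y`). -/
noncomputable def coeffA (f g h : k[X]) : RatFunc k :=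
  algebraMap k[X] (RatFunc k) (coefficient f g h 1 * coefficient f g h 3 -
    C (1 / 3) * coefficient f g h 2 ^ 2)

/-- The coefficient `b` of the short form. -/
noncomputable def coeffB (f g h : k[X]) : RatFunc k :=
  algebraMap k[X] (RatFunc k) (coefficient f g h 0 * coefficient f g h 3 ^ 2 -
    C (1 / 3) * (coefficient f g h 1 * coefficient f g h 2 * coefficient f g h 3) +
    C (2 / 27) * coefficient f g h 2 ^ 3)

/-- `f`, `g`, `h` have degree at most three, `g ^ 2 - f h` is not zero, the generic curve
`y ^ 2 = x ^ 3 + a x + b` is an elliptic curve, and it is not constant: `a` and `b` are not of the form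
`α v ^ 4`, `β v ^ 6` with constants `α`, `β` and a polynomial `v` of degree at most one. -/
structure IsFamily (f g h : k[X]) : Prop where
  degree : f.natDegree ≤ 3 ∧ g.natDegree ≤ 3 ∧ h.natDegree ≤ 3
  delta : g ^ 2 - f * h ≠ 0
  smooth : 4 * coeffA f g h ^ 3 + 27 * coeffB f g h ^ 2 ≠ 0
  nonconstant : ∀ (α β : k) (v : k[X]), v.natDegree ≤ 1 →
    ¬ (coeffA f g h = algebraMap k[X] (RatFunc k) (C α * v ^ 4) ∧
      coeffB f g h = algebraMap k[X] (RatFunc k) (C β * v ^ 6))

open Classical in
/-- The quadratic character of `r` modulo the irreducible polynomial `P`. -/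
noncomputable def character (P r : k[X]) : ℤ :=
  if P ∣ r then 0 else if ∃ s : k[X], P ∣ r - s ^ 2 then 1 else -1

open Classical in
/-- The sign `ε_P` for a prime factor `P` of `g ^ 2 - f h`: the quadratic character modulo `P` of `h`,
or of `f` if `P` divides `h` (modulo `P` the polynomial `f + 2 g t + h t ^ 2` in `t` is this one times a
square). -/
noncomputable def signP (f h P : k[X]) : ℤ :=
  if P ∣ h then character P f else character P h

open Classical in
/-- The sign `σ_R` for a prime factor `R` of the coefficient of `x ^ 3`: it is `0` unless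
`f(x) + 2 g(x) t + h(x) t ^ 2` is modulo `R(t)` a constant times the square of a polynomial in `x`, and
then it is the quadratic character of this constant. -/
noncomputable def signR (f g h R : k[X]) : ℤ :=
  if R ∣ coefficient f g h 2 then
    (if R ∣ coefficient f g h 1 then character R (coefficient f g h 0) else 0)
  else (if R ∣ coefficient f g h 1 ^ 2 - 4 * coefficient f g h 0 * coefficient f g h 2 then
    character R (coefficient f g h 2) else 0)

/-- The sign `σ_∞`: it is `0` unless `h` has degree at most two and is a constant times the square of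
a polynomial, and then it is the quadratic character of this constant (`0` for `h = 0`). -/
noncomputable def signInfty [Fintype k] [DecidableEq k] (h : k[X]) : ℤ :=
  if h.coeff 3 = 0 then
    (if h.coeff 2 = 0 then (if h.coeff 1 = 0 then quadraticChar k (h.coeff 0) else 0)
    else (if h.coeff 1 ^ 2 - 4 * h.coeff 0 * h.coeff 2 = 0 then quadraticChar k (h.coeff 2) else 0))
  else 0

/-- The product of the polynomials `1 - c_P (q T) ^ (deg P)`. -/
noncomputable def factors (q : ℤ) (S : Finset k[X]) (c : k[X] → ℤ) : ℤ[X] :=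
  ∏ P ∈ S, (1 - C (c P * q ^ P.natDegree) * X ^ P.natDegree)

/-- The multiplicity modulo `ℓ` of the zero `1 / q` of `1 - ε (q T) ^ d`: the largest power of `ℓ`
dividing `d` if `ε = 1`, or if `ε = -1` and `ℓ = 2`, and `0` otherwise. -/
def mu (ℓ : ℕ) (ε : ℤ) (d : ℕ) : ℕ :=
  if ε = 1 ∨ (ε = -1 ∧ ℓ = 2) then ℓ ^ padicValNat ℓ d else 0

/-- The multiplicity modulo `ℓ` of the zero `1 / q` of the Euler factor of `E` at the place `v` (as a
polynomial in `T`, `T = q ^ (-s)`). -/
noncomputable def localMult (ℓ : ℕ) [Fact ℓ.Prime] (f g h : k[X]) (v : Place k (RatFunc k)) : ℕ :=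
  ((S.locFactor v (coeffA f g h) (coeffB f g h)).map (Int.castRingHom (ZMod ℓ))).rootMultiplicity
    ((Nat.card k : ℕ) : ZMod ℓ)⁻¹

/-- The place `w` of `L` lies over the place `v` of `K`, with the ramification index `e`. -/
def LiesOver {k K L : Type} [Field k] [Field K] [Algebra k K] [Field L] [Algebra k L] [Algebra K L]
    (w : Place k L) (v : Place k K) (e : ℕ) : Prop :=
  0 < e ∧ ∀ f : K, w.ord (algebraMap K L f) = e * v.ord f

/-- `L` is a Galois extension of `k(t)` of degree a power of `ℓ` with field of constants `k'`; the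
places over `v` have the ramification index `e v`, which is `1` outside the finite set `B`. -/
structure IsLayer (k k' L : Type) [Field k] [Field k'] [Field L] [Algebra k' L] [Algebra k k']
    [Algebra k L] [Algebra (RatFunc k) L] (ℓ : ℕ) (e : Place k (RatFunc k) → ℕ)
    (B : Finset (Place k (RatFunc k))) : Prop where
  curve : IsCurveField k' L
  galois : IsGalois (RatFunc k) L
  power : ∃ s : ℕ, finrank (RatFunc k) L = ℓ ^ s
  index : ∀ (v : Place k (RatFunc k)) (w : Place k L) (n : ℕ), LiesOver w v n → n = e v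
  unramified : ∀ v, v ∉ B → e v = 1

end defs

/-- Let `k` be a finite field with `q` elements, of characteristic at least `5`, and `f`, `g`, `h`
polynomials of degree at most three over `k` such that `g ^ 2 - f h ≠ 0` and
`E : y ^ 2 = f(x) + 2 g(x) t + h(x) t ^ 2` is a non-constant elliptic curve over `k(t)`. Let `P` run
through the monic irreducible factors of `g ^ 2 - f h` and `R` through those of the coefficient
`f_3 + 2 g_3 t + h_3 t ^ 2` of `x ^ 3`.

(1) `L(T, E/k(t)) (1 - σ_∞ q T) ∏_R (1 - σ_R (q T) ^ (deg R)) = ∏_P (1 - ε_P (q T) ^ (deg P))`.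

(2) Let `ℓ` be a prime different from the characteristic and `L` any finite Galois extension of `k(t)` of
degree a power of `ℓ`, with field of constants `k'` and ramification indices `e_v`. If `L(T, E/L)` is
`(1 - q' T) ^ m` times an integral polynomial, `q' = |k'|`, then
`[k' : k] m + [L : k(t)] (μ(σ_∞, 1) + ∑_R μ(σ_R, deg R)) ≤
  [L : k(t)] ∑_P μ(ε_P, deg P) + ∑_v ([L : k(t)] - [L : k(t)] / e_v) M_v`,
where `μ(ε, d)` is the largest power of `ℓ` dividing `d` if `ε = 1` (or `ε = -1` and `ℓ = 2`) and `0`
otherwise, and `M_v` is the multiplicity modulo `ℓ` of the zero `1 / q` of the Euler factor of `E` at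
the ramified place `v`.

(3) In particular let `ℓ` be odd, and let no `ε_P` be `1`. Then for all `L` as in (2) for which the Euler
factors at the ramified places have no zero `1 / q` modulo `ℓ`, the `L`-function of `E` over `L` does
not vanish at `1 / q'`. So `E(L)` is finite by Tate's inequality, and the conjecture of Birch and
Swinnerton-Dyer holds for `E` over `L`. -/
theorem result (k : Type) [Field k] [Fintype k] [DecidableEq k] (h6 : (6 : k) ≠ 0) (f g h : k[X])
    (hf : IsFamily f g h) (U V : Finset k[X])
    (hU : ∀ P, P ∈ U ↔ P.Monic ∧ Irreducible P ∧ P ∣ g ^ 2 - f * h)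
    (hV : ∀ R, R ∈ V ↔ R.Monic ∧ Irreducible R ∧ R ∣ coefficient f g h 3) :
    S.Lfun k (coeffA f g h) (coeffB f g h) *
        (((1 - C (signInfty h * (Nat.card k : ℤ)) * X) *
          factors (Nat.card k : ℤ) V (signR f g h) : ℤ[X]) : PowerSeries ℤ) =
      (factors (Nat.card k : ℤ) U (signP f h) : PowerSeries ℤ) ∧
    ∀ (ℓ : ℕ) [Fact ℓ.Prime], (ℓ : k) ≠ 0 → ∀ (k' L : Type) [Field k'] [Finite k'] [Field L]
      [Algebra k' L] [Algebra k k'] [Algebra k L] [Algebra (RatFunc k) L]
      [IsScalarTower k (RatFunc k) L] [IsScalarTower k k' L] (e : Place k (RatFunc k) → ℕ)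
      (B : Finset (Place k (RatFunc k))), IsLayer k k' L ℓ e B → ∀ m : ℕ,
      S.VanishesTo k' (algebraMap (RatFunc k) L (coeffA f g h))
        (algebraMap (RatFunc k) L (coeffB f g h)) m →
      finrank k k' * m + finrank (RatFunc k) L *
            (mu ℓ (signInfty h) 1 + ∑ R ∈ V, mu ℓ (signR f g h R) R.natDegree) ≤
          finrank (RatFunc k) L * ∑ P ∈ U, mu ℓ (signP f h P) P.natDegree +
          ∑ v ∈ B, (finrank (RatFunc k) L - finrank (RatFunc k) L / e v) * localMult ℓ f g h v ∧
      (ℓ ≠ 2 → (∀ P ∈ U, signP f h P ≠ 1) → (∀ v ∈ B, e v ≠ 1 →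
        ((S.locFactor v (coeffA f g h) (coeffB f g h)).map (Int.castRingHom (ZMod ℓ))).eval
          ((Nat.card k : ℕ) : ZMod ℓ)⁻¹ ≠ 0) → m = 0) := by
  classical
  have e1 : coeffA f g h = Pool.Agent.W309.RF.A (Pool.Agent.Y701.QG.PA f g h) := rfl
  have e2 : coeffB f g h = Pool.Agent.W309.RF.A (Pool.Agent.Y701.QG.PB f g h) := rfl
  have hinj : Function.Injective (algebraMap k[X] (RatFunc k)) := RatFunc.algebraMap_injective k
  have hG : Pool.Agent.Y701.QG.Good f g h := by
    refine ⟨hf.degree.1, hf.degree.2.1, hf.degree.2.2, hf.delta, ?_, ?_⟩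
    · rintro α β v hv ⟨ha, hb⟩
      refine hf.nonconstant α β v hv ⟨?_, ?_⟩
      · rw [← ha]; exact e1
      · rw [← hb]; exact e2
    · intro h0
      apply hf.smooth
      rw [e1, e2, Pool.Agent.Y701.QG.A_disc, h0]
      exact map_zero _
  have hS := Pool.Agent.Y701.QG.exact_lfun h6 hG hU hV
  refine ⟨?_, ?_⟩
  · rw [e1, e2, S.lfun_eq hG.hΔ]
    exact hS
  · intro ℓ hℓ hℓk k' L _ _ _ _ _ _ _ _ _ e B hL m hm
    have i0 : FF.IsFF k (RatFunc k) := inferInstance
    have i1 : FF.IsFF k' L := ⟨hL.curve.essFiniteType, hL.curve.trdeg_eq_one⟩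
    obtain ⟨s, hs⟩ := hL.power
    have i2 : FiniteDimensional (RatFunc k) L :=
      Module.finite_of_finrank_pos (by rw [hs]; exact pow_pos hℓ.out.pos _)
    have i3 : FF.IsFF k L := isFF_of_finite (K := RatFunc k)
    have i4 : IsGalois (RatFunc k) L := hL.galois
    have hb := Pool.Agent.Y701.QG.bound (k' := k') (L := L) h6 hG hU hV hℓk hs hL.index B
      hL.unramified m hm
    refine ⟨hb, ?_⟩
    intro h2 hP hv
    have z1 : ∑ P ∈ U, Pool.Agent.Y701.QG.mu ℓ (Pool.Agent.Y701.QG.eps f h P) P.natDegree = 0 := by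
      refine Finset.sum_eq_zero fun P hPP => ?_
      unfold Pool.Agent.Y701.QG.mu
      rw [if_neg]
      rintro (h3 | ⟨_, h3⟩)
      · exact hP P hPP h3
      · exact h2 h3
    have z2 : ∑ v ∈ B, (finrank (RatFunc k) L - finrank (RatFunc k) L / e v) *
        ((S.locFactor v (Pool.Agent.W309.RF.A (Pool.Agent.Y701.QG.PA f g h))
          (Pool.Agent.W309.RF.A (Pool.Agent.Y701.QG.PB f g h))).map
          (Int.castRingHom (ZMod ℓ))).rootMultiplicity ((Nat.card k : ℕ) : ZMod ℓ)⁻¹ = 0 := by
      refine Finset.sum_eq_zero fun v hvB => ?_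
      by_cases hev : e v = 1
      · rw [hev, Nat.div_one, Nat.sub_self, zero_mul]
      · rw [rootMultiplicity_eq_zero, mul_zero]
        exact hv v hvB hev
    rw [z1, z2, mul_zero, add_zero] at hb
    have hfin : 0 < finrank k k' := by
      have : Module.Finite k k' := Module.Finite.of_finite
      exact finrank_pos
    have h5 : finrank k k' * m = 0 := by omega
    rcases Nat.mul_eq_zero.1 h5 with h7 | h7
    · omega
    · exact h7

end Pool.Agent.Results.MP_60d5ce_nt.QuadraticInParameter
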