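import Pool.Agent.Q6.FF.Val4

/-!
# The special values modulo three of ALL quadratic twists, over all 3-extensions

Let `k` be a finite field with `q` elements, of characteristic at least five, and `D` ANY monic
squarefree polynomial of odd degree `2 g + 1` over `k`. Let `h(D)` be the class number of `k[t, √D]` and
`w` the numerator of the zeta function of the curve `y ^ 2 = D(t)`. Let `y ^ 2 = f(x)` be a curve of
any genus `γ ≥ 1` over `k(t)` whose Frobenius elements are unipotent modulo three, with good reduction
outside `m n`, `m ∣ D`, and nodal reduction at the places dividing `n` (for example, curves such that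
`x ^ 3` times a constant plus the square of a linear polynomial is `f`: all elliptic curves with a point
of order three, and their generalisations of higher genus; see the starting files). Let `L` be ANY Galois
extension of `k(t)` of degree a power of three in which no ramified place splits in `L(√D)`, for instance
`L = k(t)`. Then the `L`-function of the Jacobian of `y ^ 2 = D f(x)` over `L`, as a power series in
`X = q ^ (-s)`, is modulo three a polynomial `Z`, and its value at `s = 1` is given by the congruence

`Z(q ^ (-1)) = (q ^ g h(D) ^ 2) ^ γ * ∏ (1 - ε_P)` modulo three,

where `P` runs through the primes dividing `n` but not `D`, and `ε_P = 1` or `-1` if the tangent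
directions at the node of the twisted curve at `P` are rational or not. The value does not depend
on `L`. Thus the special value is prime to three for one of the fields `L` if and only if it is for
all of them, if and only if the class number `h(D)` is prime to three and there are no rational tangent
directions; by the formula of Birch and Swinnerton-Dyer this is a statement on the `3`-part of
`c(J) [Ш] / [J_tors] ^ 2`.

Moreover for all these `D`, `f` and `L` the order of vanishing at `s = 1` is at most the multiplicity
of the zero of `Z` at `q ^ (-1)`, and this is at most `[L : k(t)]` times the sum of `γ` times the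
multiplicities of the zeros `1` and `1 / q` of `w` modulo three and of the number of the places with
rational tangent directions (each of them counted with the `3`-part of its degree). In particular the
rank part of the conjecture predicts ranks which are `O([L : k(t)])` with an explicit constant.

The class number is prime to three for example for the linear polynomials `D`, and for all the cubic
polynomials `D` which are not of the form `(t - a) ^ 3 + (b t + c) ^ 2` (`Pool.Agent.Q6.FF.small`); then
`w` is not zero at `1` and `1 / q` modulo three, and for all `f` and `L` the order of vanishing is at
most `[L : k(t)]` times the weight of the nodes, and zero without such nodes.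

The starting file `UnipotentTwists` bounds the order of vanishing for at least half of the `D` in a
class; nothing is said there on the other `D`, on a given `D`, or on the value.
-/

set_option autoImplicit false

open Polynomial Pool.Agent.Y711 Pool.Agent.Q6.FF

namespace Pool.Agent.Results.MP_60d5ce_nt.SpecialValuesModThree

theorem result (k : Type) [Field k] [Finite k] (h2 : (2 : k) ≠ 0) (h3 : (3 : k) ≠ 0)
    (m n : k[X]) (hn : n ≠ 0) (g : ℕ) (D : k[X]) (hD : D ∈ twists g m) :
    ∃ (_ : IsDedekindDomain (AdjoinRoot (X ^ 2 - C D : k[X][X]))) (w : ℤ[X]),
      (w : PowerSeries ℤ) * localSeries 1 D = 1 ∧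
      w.eval 1 = (Nat.card (ClassGroup (AdjoinRoot (X ^ 2 - C D : k[X][X]))) : ℤ) ∧
      ∀ (γ : ℕ) (f : k[X][X]), IsUnipotentNodal γ f m n →
        ∀ (L : Type) [Field L] [Algebra k[X] L] [Algebra (RatFunc k) L]
          [IsScalarTower k[X] (RatFunc k) L], IsThreeExtension D L →
        ∃ Z : (ZMod 3)[X],
          PowerSeries.map (Int.castRingHom (ZMod 3)) (LSeries f D (integralClosure k[X] L)) =
            (Z : PowerSeries (ZMod 3)) ∧
          Z.eval (Nat.card k : ZMod 3)⁻¹ =
            ((Nat.card k : ZMod 3) ^ g *
              (Nat.card (ClassGroup (AdjoinRoot (X ^ 2 - C D : k[X][X]))) : ZMod 3) ^ 2) ^ γ *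
              nodeFactor f D n ∧
          rootMultiplicity (Nat.card k : ZMod 3)⁻¹ Z ≤ Module.finrank (RatFunc k) L *
            (γ * (rootMultiplicity 1 (w.map (Int.castRingHom (ZMod 3))) +
              rootMultiplicity (Nat.card k : ZMod 3)⁻¹ (w.map (Int.castRingHom (ZMod 3)))) +
              splitWeight f n D) ∧
          ∀ t : ℕ, VanishesToOrder t f D (integralClosure k[X] L) →
            t ≤ rootMultiplicity (Nat.card k : ZMod 3)⁻¹ Z := by
  obtain ⟨h, w, h1, h4, -, h5⟩ := main h2 h3 hn hD
  exact ⟨h, w, h1, h4, h5⟩

end Pool.Agent.Results.MP_60d5ce_nt.SpecialValuesModThree
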